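import Pool.Agent.W188.GP.Stm

set_option autoImplicit false

/-!
Riesz-Thorin for finite matrices (part GP-RT), by Hadamard's three lines theorem.
-/

open Complex Set Filter Topology

namespace Pool.Agent.W19.GPR

open Pool.Agent.W188.GP

/-- the analytic family through `a` -/
noncomputable def fa (p : ℝ) (a w : ℂ) : ℂ := a * cexp (((p : ℂ) * w - 1) * (Real.log ‖a‖ : ℂ))

/-- the analytic family through the dual sequence -/
noncomputable def fb (p : ℝ) (t w : ℂ) : ℂ :=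
  (starRingEnd ℂ t / (‖t‖ : ℂ)) * cexp ((p : ℂ) * (1 - w) * (Real.log ‖t‖ : ℂ))

theorem norm_fa (p : ℝ) (hp : 0 < p) (a w : ℂ) (hw : 0 < w.re) :
    ‖fa p a w‖ = ‖a‖ ^ (p * w.re) := by
  unfold fa
  rcases eq_or_ne a 0 with rfl | ha
  · rw [zero_mul, norm_zero, Real.zero_rpow (by positivity)]
  · have h0 : 0 < ‖a‖ := norm_pos_iff.2 ha
    rw [norm_mul, Complex.norm_exp]
    have h1 : (((p : ℂ) * w - 1) * (Real.log ‖a‖ : ℂ)).re = (p * w.re - 1) * Real.log ‖a‖ := by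
      rw [Complex.re_mul_ofReal, Complex.sub_re, Complex.re_ofReal_mul, Complex.one_re]
    rw [h1, Real.rpow_def_of_pos h0]
    nth_rewrite 1 [← Real.exp_log h0]
    rw [← Real.exp_add]
    congr 1
    ring

theorem norm_fb (p : ℝ) (hp : 0 < p) (t w : ℂ) (hw : w.re < 1) :
    ‖fb p t w‖ = ‖t‖ ^ (p * (1 - w.re)) := by
  unfold fb
  have hw' : 0 < 1 - w.re := by linarith
  rcases eq_or_ne t 0 with rfl | ht
  · rw [map_zero, zero_div, zero_mul, norm_zero, Real.zero_rpow (by positivity)]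
  · have h0 : 0 < ‖t‖ := norm_pos_iff.2 ht
    rw [norm_mul, Complex.norm_exp, norm_div, RCLike.norm_conj, Complex.norm_real, norm_norm,
      div_self h0.ne', one_mul]
    have h1 : ((p : ℂ) * (1 - w) * (Real.log ‖t‖ : ℂ)).re = p * (1 - w.re) * Real.log ‖t‖ := by
      rw [Complex.re_mul_ofReal, Complex.re_ofReal_mul, Complex.sub_re, Complex.one_re]
    rw [h1, Real.rpow_def_of_pos h0]
    congr 1
    ring

/-- the entire function -/
noncomputable def ff (p : ℝ) (S S' : Finset ℤ) (k : ℤ → ℤ → ℂ) (a t : ℤ → ℂ) (w : ℂ) : ℂ :=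
  ∑ m ∈ S', fb p (t m) w * ∑ n ∈ S, fa p (a n) w * k m n

theorem differentiable_ff (p : ℝ) (S S' : Finset ℤ) (k : ℤ → ℤ → ℂ) (a t : ℤ → ℂ) :
    Differentiable ℂ (ff p S S' k a t) := by
  unfold ff fa fb
  fun_prop

theorem edge (p r h : ℝ) (hp : 0 < p) (hr : 1 < r) (hh : 0 ≤ h) (S S' : Finset ℤ)
    (k : ℤ → ℤ → ℂ)
    (H : ∀ a : ℤ → ℂ, ∑ m ∈ S', ‖∑ n ∈ S, a n * k m n‖ ^ r ≤ h ^ r * ∑ n ∈ S, ‖a n‖ ^ r)
    (a t : ℤ → ℂ) (w : ℂ) (hw : w.re = 1 / r) :
    ‖ff p S S' k a t w‖ ≤ (∑ m ∈ S', ‖t m‖ ^ p) ^ (1 - 1 / r) * h *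
      (∑ n ∈ S, ‖a n‖ ^ p) ^ (1 / r) := by
  have hr0 : 0 < r := by linarith
  have hw0 : 0 < w.re := by rw [hw]; positivity
  have hw1 : w.re < 1 := by
    rw [hw]
    exact (div_lt_one hr0).2 hr
  set r' := r / (r - 1) with hr'
  have hr10 : 0 < r - 1 := by linarith
  have hr'0 : 0 < r' := by positivity
  have hc : Real.HolderConjugate r' r := (Real.HolderConjugate.conjExponent hr).symm
  have e1 : ∀ m, ‖fb p (t m) w‖ ^ r' = ‖t m‖ ^ p := by
    intro m
    rw [norm_fb p hp _ _ hw1, ← Real.rpow_mul (norm_nonneg _), hw]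
    congr 1
    rw [hr']
    field_simp
  have e2 : ∀ n, ‖fa p (a n) w‖ ^ r = ‖a n‖ ^ p := by
    intro n
    rw [norm_fa p hp _ _ hw0, ← Real.rpow_mul (norm_nonneg _), hw]
    congr 1
    field_simp
  have hA : 0 ≤ ∑ n ∈ S, ‖a n‖ ^ p := Finset.sum_nonneg fun n _ => by positivity
  calc ‖ff p S S' k a t w‖
      ≤ ∑ m ∈ S', ‖fb p (t m) w‖ * ‖∑ n ∈ S, fa p (a n) w * k m n‖ := by
        unfold ff
        refine (norm_sum_le _ _).trans (Finset.sum_le_sum fun m _ => ?_)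
        rw [norm_mul]
    _ ≤ (∑ m ∈ S', ‖fb p (t m) w‖ ^ r') ^ (1 / r') *
        (∑ m ∈ S', ‖∑ n ∈ S, fa p (a n) w * k m n‖ ^ r) ^ (1 / r) :=
        Real.inner_le_Lp_mul_Lq_of_nonneg _ hc (fun _ _ => norm_nonneg _)
          (fun _ _ => norm_nonneg _)
    _ ≤ (∑ m ∈ S', ‖t m‖ ^ p) ^ (1 / r') *
        (h ^ r * ∑ n ∈ S, ‖a n‖ ^ p) ^ (1 / r) := by
        rw [Finset.sum_congr rfl fun m _ => e1 m]
        have e3 := H (fun n => fa p (a n) w)
        rw [Finset.sum_congr rfl fun n _ => e2 n] at e3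
        gcongr
    _ = (∑ m ∈ S', ‖t m‖ ^ p) ^ (1 - 1 / r) * h * (∑ n ∈ S, ‖a n‖ ^ p) ^ (1 / r) := by
        have e4 : 1 / r' = 1 - 1 / r := by
          rw [hr']
          field_simp
        have e5 : (h ^ r) ^ (1 / r) = h := by
          rw [← Real.rpow_mul hh, mul_one_div_cancel hr0.ne', Real.rpow_one]
        rw [e4, Real.mul_rpow (by positivity) hA, e5]
        ring

theorem rpow_le_one_add (x y p : ℝ) (hx : 0 ≤ x) (hy : 0 ≤ y) (hyp : y ≤ p) :
    x ^ y ≤ (1 + x) ^ p :=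
  (Real.rpow_le_rpow hx (by linarith) hy).trans
    (Real.rpow_le_rpow_of_exponent_le (by linarith) hyp)

theorem ff_at (p : ℝ) (hp : 1 < p) (S S' : Finset ℤ) (k : ℤ → ℤ → ℂ) (a : ℤ → ℂ) :
    ff p S S' k a (fun m => ∑ n ∈ S, a n * k m n) ((1 / p : ℝ) : ℂ) =
      ((∑ m ∈ S', ‖∑ n ∈ S, a n * k m n‖ ^ p : ℝ) : ℂ) := by
  have hp0 : (p : ℂ) ≠ 0 := by
    have : p ≠ 0 := by linarith
    exact_mod_cast this
  unfold ff
  rw [Complex.ofReal_sum]
  refine Finset.sum_congr rfl fun m _ => ?_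
  have e1 : ∀ n, fa p (a n) ((1 / p : ℝ) : ℂ) = a n := by
    intro n
    unfold fa
    rw [Complex.ofReal_div, Complex.ofReal_one, mul_one_div_cancel hp0, sub_self, zero_mul,
      Complex.exp_zero, mul_one]
  have e2 : ∑ n ∈ S, fa p (a n) ((1 / p : ℝ) : ℂ) * k m n = ∑ n ∈ S, a n * k m n :=
    Finset.sum_congr rfl fun n _ => by rw [e1 n]
  rw [e2]
  set t := ∑ n ∈ S, a n * k m n with ht
  show fb p t ((1 / p : ℝ) : ℂ) * t = ((‖t‖ ^ p : ℝ) : ℂ)
  rcases eq_or_ne t 0 with h0 | h0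
  · rw [h0, mul_zero, norm_zero, Real.zero_rpow (by linarith), Complex.ofReal_zero]
  · have hpos : 0 < ‖t‖ := norm_pos_iff.2 h0
    unfold fb
    have h1 : (p : ℂ) * (1 - ((1 / p : ℝ) : ℂ)) * (Real.log ‖t‖ : ℂ) =
        (((p - 1) * Real.log ‖t‖ : ℝ) : ℂ) := by
      push_cast
      field_simp
    rw [h1, ← Complex.ofReal_exp]
    have h2 : Real.exp ((p - 1) * Real.log ‖t‖) = ‖t‖ ^ (p - 1) := by
      rw [Real.rpow_def_of_pos hpos, mul_comm]
    rw [h2]
    have h3 : starRingEnd ℂ t * t = ((‖t‖ * ‖t‖ : ℝ) : ℂ) := by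
      rw [mul_comm, Complex.mul_conj, Complex.normSq_eq_norm_sq, sq]
    have h4 : ‖t‖ ^ p = ‖t‖ ^ (p - 1) * ‖t‖ := by
      rw [← Real.rpow_add_one hpos.ne']
      congr 1
      ring
    have h5 : ((‖t‖ : ℝ) : ℂ) ≠ 0 := by exact_mod_cast hpos.ne'
    calc starRingEnd ℂ t / (‖t‖ : ℂ) * ((‖t‖ ^ (p - 1) : ℝ) : ℂ) * t
        = (starRingEnd ℂ t * t) * ((‖t‖ ^ (p - 1) : ℝ) : ℂ) / (‖t‖ : ℂ) := by ring
      _ = ((‖t‖ ^ p : ℝ) : ℂ) := by
          rw [h3, h4]
          push_cast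
          field_simp

theorem gp_rt : StRT := by
  intro p₀ p₁ p h hp0 hp0p hpp1 hh S S' k H0 H1 a
  rcases hp0p.eq_or_lt with rfl | hlt0
  · exact H0 a
  rcases hpp1.eq_or_lt with rfl | hlt1
  · exact H1 a
  have hp : 1 < p := by linarith
  have hp' : 0 < p := by linarith
  have hp1 : 1 < p₁ := by linarith
  have hp00 : 0 < p₀ := by linarith
  have hp10 : 0 < p₁ := by linarith
  set t : ℤ → ℂ := fun m => ∑ n ∈ S, a n * k m n with ht
  set A := ∑ n ∈ S, ‖a n‖ ^ p with hA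
  set B := ∑ m ∈ S', ‖t m‖ ^ p with hB
  have hA0 : 0 ≤ A := Finset.sum_nonneg fun n _ => by positivity
  have hB0 : 0 ≤ B := Finset.sum_nonneg fun n _ => by positivity
  show B ≤ h ^ p * A
  rcases hB0.eq_or_lt with hB1 | hBpos
  · rw [← hB1]
    positivity
  set l := 1 / p₁ with hl
  set u := 1 / p₀ with hu
  have hl0 : 0 < l := by positivity
  have hlp : l < 1 / p := one_div_lt_one_div_of_lt hp' hlt1
  have hpu : 1 / p < u := one_div_lt_one_div_of_lt hp00 hlt0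
  have hlu : l < u := hlp.trans hpu
  have hu1 : u < 1 := (div_lt_one hp00).2 hp0
  have key := Complex.HadamardThreeLines.norm_le_interp_of_mem_verticalClosedStrip'
    (f := ff p S S' k a t) (z := ((1 / p : ℝ) : ℂ)) (a := B ^ (1 - 1 / p₁) * h * A ^ (1 / p₁))
    (b := B ^ (1 - 1 / p₀) * h * A ^ (1 / p₀)) (l := l) (u := u) hlu
    (by
      show ((1 / p : ℝ) : ℂ).re ∈ Icc l u
      rw [Complex.ofReal_re]
      exact ⟨hlp.le, hpu.le⟩)
    (differentiable_ff p S S' k a t).diffContOnCl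
    (by
      refine ⟨∑ m ∈ S', (1 + ‖t m‖) ^ p * ∑ n ∈ S, (1 + ‖a n‖) ^ p * ‖k m n‖, ?_⟩
      rintro _ ⟨w, hw, rfl⟩
      have hw' : l ≤ w.re ∧ w.re ≤ u := hw
      have hw0 : 0 < w.re := by linarith [hw'.1]
      have hw1 : w.re < 1 := by linarith [hw'.2]
      show ‖ff p S S' k a t w‖ ≤ _
      unfold ff
      refine (norm_sum_le _ _).trans (Finset.sum_le_sum fun m _ => ?_)
      rw [norm_mul]
      have e1 : ‖fb p (t m) w‖ ≤ (1 + ‖t m‖) ^ p := by
        rw [norm_fb p hp' _ _ hw1]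
        refine rpow_le_one_add _ _ _ (norm_nonneg _) ?_ ?_
        · have : 0 ≤ 1 - w.re := by linarith
          positivity
        · nlinarith
      refine mul_le_mul e1 ?_ (norm_nonneg _) (by positivity)
      refine (norm_sum_le _ _).trans (Finset.sum_le_sum fun n _ => ?_)
      rw [norm_mul, norm_fa p hp' _ _ hw0]
      refine mul_le_mul_of_nonneg_right ?_ (norm_nonneg _)
      refine rpow_le_one_add _ _ _ (norm_nonneg _) (by positivity) ?_
      nlinarith)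
    (fun w hw => edge p p₁ h hp' hp1 hh S S' k H1 a t w hw)
    (fun w hw => edge p p₀ h hp' hp0 hh S S' k H0 a t w hw)
  rw [ff_at p hp, Complex.norm_real, Real.norm_of_nonneg hB0, Complex.ofReal_re] at key
  set s := (1 / p - l) / (u - l) with hs
  have hul : 0 < u - l := by linarith
  have hs0 : 0 ≤ s := div_nonneg (by linarith) hul.le
  have hs1 : 0 ≤ 1 - s := by
    have : s ≤ 1 := (div_le_one hul).2 (by linarith)
    linarith
  have hsl : l * (1 - s) + u * s = 1 / p := by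
    have : s * (u - l) = 1 / p - l := div_mul_cancel₀ _ hul.ne'
    linarith
  have key2 : B ≤ B ^ (1 - 1 / p) * h * A ^ (1 / p) := by
    have f1 : (B ^ (1 - l) * h * A ^ l) ^ (1 - s) =
        B ^ ((1 - l) * (1 - s)) * h ^ (1 - s) * A ^ (l * (1 - s)) := by
      rw [Real.mul_rpow (by positivity) (by positivity), Real.mul_rpow (by positivity) hh,
        ← Real.rpow_mul hB0, ← Real.rpow_mul hA0]
    have f2 : (B ^ (1 - u) * h * A ^ u) ^ s =
        B ^ ((1 - u) * s) * h ^ s * A ^ (u * s) := by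
      rw [Real.mul_rpow (by positivity) (by positivity), Real.mul_rpow (by positivity) hh,
        ← Real.rpow_mul hB0, ← Real.rpow_mul hA0]
    have g1 : B ^ (1 - 1 / p) = B ^ ((1 - l) * (1 - s)) * B ^ ((1 - u) * s) := by
      rw [← Real.rpow_add hBpos]
      congr 1
      linarith
    have g2 : h = h ^ (1 - s) * h ^ s := by
      rw [← Real.rpow_add_of_nonneg hh hs1 hs0]
      simp
    have g3 : A ^ (1 / p) = A ^ (l * (1 - s)) * A ^ (u * s) := by
      rw [← Real.rpow_add_of_nonneg hA0 (by positivity) (by positivity), hsl]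
    calc B ≤ (B ^ (1 - l) * h * A ^ l) ^ (1 - s) * (B ^ (1 - u) * h * A ^ u) ^ s := key
      _ = (B ^ ((1 - l) * (1 - s)) * B ^ ((1 - u) * s)) * (h ^ (1 - s) * h ^ s) *
          (A ^ (l * (1 - s)) * A ^ (u * s)) := by rw [f1, f2]; ring
      _ = B ^ (1 - 1 / p) * h * A ^ (1 / p) := by rw [← g1, ← g2, ← g3]
  have key3 : B ^ (1 / p) ≤ h * A ^ (1 / p) := by
    have h1 : B = B ^ (1 - 1 / p) * B ^ (1 / p) := by
      rw [← Real.rpow_add hBpos]
      simp
    have h2 : 0 < B ^ (1 - 1 / p) := by positivity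
    have h3 : B ^ (1 - 1 / p) * B ^ (1 / p) ≤ B ^ (1 - 1 / p) * (h * A ^ (1 / p)) := by
      rw [← h1, ← mul_assoc]
      exact key2
    exact le_of_mul_le_mul_left h3 h2
  calc B = (B ^ (1 / p)) ^ p := by
        rw [← Real.rpow_mul hB0, one_div_mul_cancel hp'.ne', Real.rpow_one]
    _ ≤ (h * A ^ (1 / p)) ^ p := by gcongr
    _ = h ^ p * A := by
        rw [Real.mul_rpow hh (by positivity), ← Real.rpow_mul hA0,
          one_div_mul_cancel hp'.ne', Real.rpow_one]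

end Pool.Agent.W19.GPR
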